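import Mathlib

set_option autoImplicit false
set_option maxHeartbeats 400000

namespace Pool.Agent.Results.MP_965ec6_al.FourFour

open scoped commutatorElement

abbrev D := Equiv.Perm (Fin 4)

def δ0 (i : Fin 4) : D := if i = 3 then Equiv.swap 0 1 else finRotate 4
def c : D := Equiv.swap 0 1 * Equiv.swap 1 2
def ρ0 (x : Fin 4) : D := if x = 0 then Equiv.swap 0 1 else if x = 3 then c else 1

def act : List (Fin 4) → (D → D) → List (Fin 4)
  | [], _ => []
  | i :: w, f => f 1 i :: act w (fun d => f (d * δ0 i))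

def K : Subgroup (D → D) where
  carrier := {f | ∀ d i, δ0 (f d i) = δ0 i}
  one_mem' := fun _ _ => rfl
  mul_mem' := fun {f g} hf hg d i => (hf d _).trans (hg d i)
  inv_mem' := fun {f} hf d i => by
    have := hf d ((f d)⁻¹ i)
    simpa using this.symm

theorem act_one (w : List (Fin 4)) : act w 1 = w := by
  induction w with
  | nil => rfl
  | cons i w ih => exact congrArg (List.cons i) ih

theorem act_mul (w : List (Fin 4)) : ∀ f g : D → D, g ∈ K → act w (f * g) = act (act w g) f := by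
  induction w with
  | nil => intro _ _ _; rfl
  | cons i w ih =>
    intro f g hg
    simp only [act]
    rw [hg 1 i, ← ih _ (fun d => g (d * δ0 i)) (fun d j => hg _ j)]
    rfl

def Ψ : K →* Equiv.Perm (List (Fin 4)) :=
  MonoidHom.toHomPerm
    { toFun := fun f w => act w f.1
      map_one' := funext act_one
      map_mul' := fun f g => funext fun w => act_mul w f.1 g.1 g.2 }

theorem Ψ_apply (f : K) (w : List (Fin 4)) : Ψ f w = act w f.1 := rfl

def dw : List (Fin 4) → D
  | [] => 1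
  | i :: w => dw w * δ0 i

theorem act_last (w : List (Fin 4)) (j : Fin 4) :
    ∀ f : D → D, (act (w ++ [j]) f).getLast? = some (f (dw w) j) := by
  induction w with
  | nil => intro f; rfl
  | cons i w ih =>
    intro f
    have := ih (fun d => f (d * δ0 i))
    rw [List.cons_append, act, List.getLast?_cons, this]
    rfl

theorem dw_surj : ∀ d : D, ∃ w ∈ ([[], [0], [3], [0, 0], [3, 0], [0, 3], [0, 0, 0], [3, 0, 0], [0, 3, 0], [0, 0, 3], [3, 0, 3], [3, 0, 0, 0], [0, 3, 0, 0], [0, 0, 3, 0], [3, 0, 3, 0], [3, 0, 0, 3], [0, 3, 0, 0, 0], [0, 0, 3, 0, 0], [3, 0, 3, 0, 0], [3, 0, 0, 3, 0], [0, 3, 0, 0, 3], [0, 0, 3, 0, 0, 0], [3, 0, 3, 0, 0, 0], [3, 0, 0, 3, 0, 0]] : List (List (Fin 4))), dw w = d := by decide +kernel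

theorem Ψ_inj : Function.Injective Ψ := by
  rw [injective_iff_map_eq_one]
  intro f hf
  ext d j
  obtain ⟨w, -, rfl⟩ := dw_surj d
  have h1 := act_last w j f.1
  rw [← Ψ_apply, hf] at h1
  simp only [Equiv.Perm.coe_one, id_eq, List.getLast?_append, List.getLast?_singleton,
    Option.some_or, Option.some.injEq] at h1
  simp [← h1]

def fx (x : Fin 4) : K := ⟨fun d => ρ0 (d x), fun d => (by decide : ∀ y i, δ0 (ρ0 y i) = δ0 i) _⟩

abbrev P := {p : Fin 4 × Fin 4 // p.1 ≠ p.2}
abbrev C := Multiplicative (ZMod 3)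

def φ : C →* D where
  toFun z := c ^ z.toAdd.val
  map_one' := by decide
  map_mul' := by decide

def pr (d : D) : P := ⟨(d⁻¹ 0, d⁻¹ 3), fun h => absurd (d⁻¹.injective h) (by decide)⟩

def θ : (P → C) →* K where
  toFun e := ⟨fun d => φ (e (pr d)), fun d => (by decide : ∀ z i, δ0 (φ z i) = δ0 i) _⟩
  map_one' := by ext d; simp
  map_mul' e e' := by ext d; simp

theorem θ_inj : Function.Injective θ := by
  intro e e' h
  funext p
  obtain ⟨d, rfl⟩ := (by decide +kernel : ∀ p, ∃ d, pr d = p) p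
  exact (by decide : ∀ z z', φ z = φ z' → z = z') _ _ (congrFun (congrArg Subtype.val h) d)

theorem θ_single : ∀ (p : P) (z : C) (d : D), φ (if pr d = p then z else 1) =
    ⁅⁅ρ0 (d p.1.1), ρ0 (d p.1.2)⁆, ρ0 (d p.1.1)⁆ ^ (2 * z.toAdd.val) := by decide +kernel

theorem θ_mem (e : P → C) : θ e ∈ Subgroup.closure (Set.range fx) := by
  refine Subgroup.pi_mem_of_mulSingle_mem (H := (Subgroup.closure (Set.range fx)).comap θ) e
    fun p => ?_
  have h : θ (Pi.mulSingle p (e p)) = ⁅⁅fx p.1.1, fx p.1.2⁆, fx p.1.1⁆ ^ (2 * (e p).toAdd.val) := by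
    apply Subtype.ext
    funext d
    refine Eq.trans ?_ ((θ_single p (e p) d).trans ?_)
    · change φ (Pi.mulSingle (M := fun _ => C) p (e p) (pr d)) = _
      rw [Pi.mulSingle_apply]
    · simp [fx, commutatorElement_def]
  have hm : ∀ x, fx x ∈ Subgroup.closure (Set.range fx) := fun x => Subgroup.subset_closure ⟨x, rfl⟩
  rw [Subgroup.mem_comap, h]
  simp only [commutatorElement_def]
  exact pow_mem (mul_mem (mul_mem (mul_mem
    (mul_mem (mul_mem (mul_mem (hm _) (hm _)) (inv_mem (hm _))) (inv_mem (hm _))) (hm _))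
    (inv_mem (mul_mem (mul_mem (mul_mem (hm _) (hm _)) (inv_mem (hm _))) (inv_mem (hm _)))))
    (inv_mem (hm _))) _

theorem result : ∃ (p q : ℕ) (δ : Fin p → Equiv.Perm (Fin q)) (ρ : Fin q → Equiv.Perm (Fin p))
    (f : Fin q → Equiv.Perm (List (Fin p))), 1 ≤ p ∧ 1 ≤ q ∧
    (∀ j, Function.Bijective fun x => δ ((ρ x)⁻¹ j) x) ∧
    (∀ x, f x [] = []) ∧ (∀ x i w, f x (i :: w) = ρ x i :: f (δ i x) w) ∧
    Finite (Subgroup.closure (Set.range f)) ∧
    p.factorial ^ q < Nat.card (Subgroup.closure (Set.range f)) := by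
  have hG : Subgroup.closure (Set.range (Ψ ∘ fx)) = (Subgroup.closure (Set.range fx)).map Ψ := by
    rw [MonoidHom.map_closure, Set.range_comp]
  have he := (Subgroup.equivMapOfInjective (Subgroup.closure (Set.range fx)) Ψ Ψ_inj).toEquiv
  refine ⟨4, 4, δ0, ρ0, Ψ ∘ fx, by norm_num, by norm_num, by decide, fun _ => rfl,
    fun _ _ _ => rfl, ?_, ?_⟩
  · rw [hG]
    exact Finite.of_equiv _ he
  · rw [hG, ← Nat.card_congr he]
    have h1 := Nat.card_le_card_of_injective
      (fun e : P → C => (⟨θ e, θ_mem e⟩ : Subgroup.closure (Set.range fx)))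
      (fun e e' h => θ_inj (congrArg Subtype.val h))
    have h2 : Nat.card P = 12 := by rw [Nat.card_eq_fintype_card]; decide
    have h3 : Nat.card C = 3 := by simp
    rw [Nat.card_fun, h2, h3] at h1
    exact lt_of_lt_of_le (by decide) h1

end Pool.Agent.Results.MP_965ec6_al.FourFour
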